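import Pool.Agent.Q73.CM.Stm

/-!
# Project CM (helper73): the weights `wt q`
-/

set_option autoImplicit false

namespace Pool.Agent.Q92.CM

open Set Filter Topology MeasureTheory
open Pool.Agent.Q73.CM

variable {m n : ℕ} {I : Finset (Fin m × Fin n)} {q : Fin m × Fin n → ℝ}

theorem q_nonneg (h : IsProb I q) (i : Fin m × Fin n) : 0 ≤ q i := by
  by_cases hi : i ∈ I
  · exact (h.pos i hi).le
  · exact (h.zero i hi).symm.le

theorem sum_univ (h : IsProb I q) : ∑ i, q i = 1 := by
  rw [← h.sum]
  exact (Finset.sum_subset (Finset.subset_univ I) fun i _ hi => h.zero i hi).symm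

theorem wt_apply (s : Set (Fin m × Fin n)) [DecidablePred (· ∈ s)] :
    wt q s = ∑ i with i ∈ s, ENNReal.ofReal (q i) := by
  unfold wt
  rw [Measure.finsetSum_apply, Finset.sum_filter]
  refine Finset.sum_congr rfl fun i _ => ?_
  rw [Measure.smul_apply, Measure.dirac_apply' i (Set.toFinite s).measurableSet, smul_eq_mul]
  by_cases hi : i ∈ s <;> simp [hi]

theorem wt_prob (h : IsProb I q) : IsProbabilityMeasure (wt q) := by
  classical
  constructor
  rw [wt_apply]
  simp only [mem_univ, Finset.filter_true]
  rw [← ENNReal.ofReal_sum_of_nonneg fun i _ => q_nonneg h i, sum_univ h, ENNReal.ofReal_one]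

theorem wt_integral (h : IsProb I q) (f : Fin m × Fin n → ℝ) :
    ∫ i, f i ∂(wt q) = ∑ i, q i * f i := by
  unfold wt
  rw [integral_finsetSum_measure]
  · refine Finset.sum_congr rfl fun i _ => ?_
    rw [integral_smul_measure, integral_dirac, ENNReal.toReal_ofReal (q_nonneg h i), smul_eq_mul]
  · intro i _
    refine Integrable.smul_measure ?_ ENNReal.ofReal_ne_top
    exact integrable_dirac (by simp)

end Pool.Agent.Q92.CM
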