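import Pool.Agent.Q92.CM.Base

/-!
# Project CM (helper73), job CYL
-/

set_option autoImplicit false

namespace Pool.Agent.Q92.CM

open Set Filter Topology MeasureTheory
open Pool.Agent.Q73.CM

variable {m n : ℕ} {I : Finset (Fin m × Fin n)} {q : Fin m × Fin n → ℝ}

theorem wt_single (i : Fin m × Fin n) : wt q {i} = ENNReal.ofReal (q i) := by
  classical
  rw [wt_apply]
  simp [Finset.filter_eq']

theorem wt_col (h : IsProb I q) (j : Fin m) :
    wt q {i | i.1 = j} = ENNReal.ofReal (qcol q j) := by
  classical
  rw [wt_apply, ← ENNReal.ofReal_sum_of_nonneg fun i _ => q_nonneg h i]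
  congr 1
  unfold qcol
  refine Finset.sum_nbij' (fun i => i.2) (fun k => (j, k)) ?_ ?_ ?_ ?_ ?_
  · intro i _
    exact Finset.mem_univ _
  · intro k _
    simp
  · intro i hi
    have hi' : i.1 = j := by simpa using hi
    exact Prod.ext hi'.symm rfl
  · intro k _
    rfl
  · intro i hi
    have hi' : i.1 = j := by simpa using hi
    rw [← hi']

theorem t_CYL : S_CYL := by
  intro m n G I q h r hr hr1 ω
  have hP := wt_prob h
  set K := min (ka G r ω) (kb G r ω) with hK
  set A := ka G r ω with hA
  have hKA : K ≤ A := min_le_left _ _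
  have hKB : K ≤ kb G r ω := min_le_right _ _
  let T : ℕ → Set (Fin m × Fin n) := fun t => if t < K then {ω t} else {i | i.1 = (ω t).1}
  have h1 : {ω' | SameSq G r ω ω'} ⊆ Set.pi (Finset.range A : Set ℕ) T := by
    rintro ω' ⟨ha, hb⟩ t ht
    have ht' : t < A := by simpa using ht
    simp only [T]
    split_ifs with h2
    · exact Prod.ext (ha t ht') (hb t (by omega))
    · exact ha t ht'
  refine (measure_mono h1).trans ?_
  unfold bern
  rw [Measure.infinitePi_pi _ fun i _ => (Set.toFinite _).measurableSet]
  have h3 : ∏ i ∈ Finset.range A, wt q (T i) =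
      (∏ t ∈ Finset.range K, ENNReal.ofReal (q (ω t))) *
        ∏ t ∈ Finset.Ico K A, ENNReal.ofReal (qcol q (ω t).1) := by
    rw [← Finset.prod_range_mul_prod_Ico _ hKA]
    congr 1
    · refine Finset.prod_congr rfl fun t ht => ?_
      have ht' : t < K := Finset.mem_range.mp ht
      simp only [T]
      rw [if_pos ht', wt_single]
    · refine Finset.prod_congr rfl fun t ht => ?_
      have ht' : ¬ t < K := not_lt.mpr (Finset.mem_Ico.mp ht).1
      simp only [T]
      rw [if_neg ht', wt_col h]
  rw [h3, ENNReal.ofReal_mul (Finset.prod_nonneg fun t _ => q_nonneg h _),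
    ENNReal.ofReal_prod_of_nonneg fun t _ => q_nonneg h _,
    ENNReal.ofReal_prod_of_nonneg (f := fun t => qcol q (ω t).1) fun t _ =>
      Finset.sum_nonneg fun k _ => q_nonneg h _]

end Pool.Agent.Q92.CM
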