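import Pool.Agent.Q92.CM.Base

/-!
# Project CM (helper73), job LLN
-/

set_option autoImplicit false

namespace Pool.Agent.Q92.CM

open Set Filter Topology MeasureTheory
open Pool.Agent.Q73.CM

theorem t_LLN : S_LLN := by
  intro m n I q h
  have := wt_prob h
  refine ⟨wt_prob h, ?_, fun f => ?_⟩
  · rw [ae_all_iff]
    intro t
    have h0 : wt q ((I : Set (Fin m × Fin n))ᶜ) = 0 := by
      classical
      rw [wt_apply]
      refine Finset.sum_eq_zero fun i hi => ?_
      have hi' : i ∉ I := by simpa using hi
      rw [h.zero i hi', ENNReal.ofReal_zero]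
    have h1 : (bern q) (Function.eval t ⁻¹' ((I : Set (Fin m × Fin n))ᶜ)) = 0 := by
      have h2 := measurePreserving_eval_infinitePi (fun _ : ℕ => wt q) t
      unfold bern
      rw [h2.measure_preimage (Set.toFinite _).measurableSet.nullMeasurableSet]
      exact h0
    rw [ae_iff]
    exact h1
  · have hf : Measurable f := measurable_of_finite f
    have hm : ∀ i : ℕ, Measurable (fun ω : ℕ → Fin m × Fin n => f (ω i)) := fun i => by fun_prop
    have hb : ∀ i : ℕ, Measure.map (fun ω : ℕ → Fin m × Fin n => f (ω i)) (bern q) =
        Measure.map f (wt q) := by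
      intro i
      have h2 := measurePreserving_eval_infinitePi (fun _ : ℕ => wt q) i
      rw [← h2.map_eq, Measure.map_map hf (measurable_pi_apply i)]
      rfl
    have hint0 : Integrable f (wt q) := by
      exact Integrable.of_finite
    have h3 : Integrable (fun ω : ℕ → Fin m × Fin n => f (ω 0)) (bern q) := by
      have h2 := measurePreserving_eval_infinitePi (fun _ : ℕ => wt q) 0
      exact h2.integrable_comp_of_integrable hint0
    have h4 : ProbabilityTheory.iIndepFun (fun i (ω : ℕ → Fin m × Fin n) => f (ω i)) (bern q) :=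
      ProbabilityTheory.iIndepFun_infinitePi (P := fun _ : ℕ => wt q) (X := fun _ => f) fun _ => hf
    have h5 := ProbabilityTheory.strong_law_ae_real (μ := bern q)
      (fun i (ω : ℕ → Fin m × Fin n) => f (ω i)) h3 (fun i j hij => h4.indepFun hij)
      (fun i => ⟨(hm i).aemeasurable, (hm 0).aemeasurable, by rw [hb, hb]⟩)
    have h6 : ∫ ω, f (ω 0) ∂(bern q) = ∑ i, q i * f i := by
      rw [← wt_integral h f]
      have h2 := measurePreserving_eval_infinitePi (fun _ : ℕ => wt q) 0
      rw [← h2.map_eq, integral_map (measurable_pi_apply 0).aemeasurable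
        hf.aestronglyMeasurable]
      rfl
    filter_upwards [h5] with ω hω
    rw [← h6]
    exact hω

end Pool.Agent.Q92.CM
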